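import Pool.Agent.H190.NK.Dual
import Pool.Agent.H379.TN.Stms

/-!
# The functor `N ↦ D Hom_B(M, N)` for a Frobenius algebra `B` (project TN, part A)

Generalisation of `Pool/Agent/H190/NK/{Func,Dual}.lean` from symmetric algebras to Frobenius
algebras with an involutive Nakayama automorphism.
-/

set_option autoImplicit false
set_option linter.unusedSectionVars false
set_option linter.unusedVariables false

open CategoryTheory CategoryTheory.Abelian
open Pool.Agent.H379.TN
open Pool.Agent.H190.NK (GG Gmap ev_Gmap smulF smulF_apply Gmap_surj Gmap_inj Gmap_exact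
  Gmap_comp_zero factor ev_sum endo_hom post pre)

namespace Pool.Agent.H177.TN

variable {K : Type} [Field K] {T : Type} [Ring T] [Algebra K T] (y : Fr K T)

/-- the Frobenius isomorphism `T → D T` -/
theorem exists_phi [Module.Finite K T] :
    ∃ φ : T ≃ₗ[K] Module.Dual K T, ∀ t x : T, φ t x = y.lam (x * t) := by
  let f : T →ₗ[K] Module.Dual K T :=
    { toFun := fun t => y.lam ∘ₗ LinearMap.mulRight K t
      map_add' := fun t t' => by
        ext x
        simp [mul_add]
      map_smul' := fun c t => by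
        ext x
        simp }
  have hf : Function.Injective f := by
    rw [← LinearMap.ker_eq_bot, LinearMap.ker_eq_bot']
    intro t ht
    exact y.nondeg t fun x => LinearMap.congr_fun ht x
  have hd : Module.finrank K T = Module.finrank K (Module.Dual K T) :=
    (Subspace.dual_finrank_eq (K := K) (V := T)).symm
  refine ⟨LinearEquiv.ofInjectiveOfFinrankEq f hf hd, fun t x => rfl⟩

/-- the Frobenius isomorphism -/
noncomputable def phi [Module.Finite K T] : T ≃ₗ[K] Module.Dual K T := (exists_phi y).choose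

theorem phi_apply [Module.Finite K T] (t x : T) : phi y t x = y.lam (x * t) :=
  (exists_phi y).choose_spec t x

theorem eq_of_lam {t t' : T} (h : ∀ a, y.lam (a * t) = y.lam (a * t')) : t = t' := by
  rw [← sub_eq_zero]
  apply y.nondeg
  intro x
  rw [mul_sub, map_sub, h, sub_self]

section lift

variable [Module.Finite K T]
variable {Q : Type} [AddCommGroup Q] [Module T Q] [Module K Q] [IsScalarTower K T Q]

/-- the `T`-linear map with a given trace -/
noncomputable def lift (l : Q →ₗ[K] K) : Q →ₗ[T] T where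
  toFun q := (phi y).symm (l ∘ₗ (LinearMap.toSpanSingleton T Q q).restrictScalars K)
  map_add' q q' := by
    rw [← map_add]
    congr 1
    ext a
    simp [smul_add]
  map_smul' t q := by
    apply eq_of_lam y
    intro a
    rw [← phi_apply, LinearEquiv.apply_symm_apply, RingHom.id_apply, smul_eq_mul, ← mul_assoc,
      ← phi_apply, LinearEquiv.apply_symm_apply]
    simp [mul_smul]

theorem lam_mul_lift (l : Q →ₗ[K] K) (a : T) (q : Q) : y.lam (a * lift y l q) = l (a • q) := by
  rw [← phi_apply]
  change phi y ((phi y).symm _) a = _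
  rw [LinearEquiv.apply_symm_apply]
  simp

theorem lam_lift (l : Q →ₗ[K] K) (q : Q) : y.lam (lift y l q) = l q := by
  have := lam_mul_lift y l 1 q
  simpa using this

theorem lift_lam (f : Q →ₗ[T] T) : lift y (y.lam ∘ₗ f.restrictScalars K) = f := by
  ext q
  apply eq_of_lam y
  intro a
  rw [lam_mul_lift]
  simp

theorem hom_ext {f g : Q →ₗ[T] T} (h : ∀ q, y.lam (f q) = y.lam (g q)) : f = g := by
  rw [← lift_lam y f, ← lift_lam y g]
  congr 1
  ext q
  exact h q

theorem sep {q q' : Q} (h : ∀ s : Q →ₗ[T] T, y.lam (s q) = y.lam (s q')) : q = q' := by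
  rw [← sub_eq_zero, ← Module.forall_dual_apply_eq_zero_iff K]
  intro l
  have := h (lift y l)
  rw [lam_lift, lam_lift] at this
  rw [map_sub, this, sub_self]

include y in
/-- `T` is injective as a module over itself -/
theorem injective_self : Module.Injective T T := by
  refine ⟨fun P Q _ _ _ _ f hf g => ?_⟩
  let : Module K P := Module.compHom P (algebraMap K T)
  let : Module K Q := Module.compHom Q (algebraMap K T)
  have : IsScalarTower K T P := ⟨fun c t p => by
    change (c • t) • p = algebraMap K T c • (t • p)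
    rw [smul_smul, Algebra.smul_def]⟩
  have : IsScalarTower K T Q := ⟨fun c t p => by
    change (c • t) • p = algebraMap K T c • (t • p)
    rw [smul_smul, Algebra.smul_def]⟩
  obtain ⟨l, hl⟩ := LinearMap.dualMap_surjective_of_injective (f := f.restrictScalars K)
    (by exact hf) (y.lam ∘ₗ g.restrictScalars K)
  refine ⟨lift y l, fun p => ?_⟩
  apply eq_of_lam y
  intro a
  rw [lam_mul_lift, ← map_smul]
  have := LinearMap.congr_fun hl (a • p)
  simp only [LinearMap.dualMap_apply', LinearMap.comp_apply, LinearMap.restrictScalars_apply] at this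
  rw [this, map_smul, smul_eq_mul]

end lift

section kappa

variable [Module.Finite K T]
variable {M : Type} [AddCommGroup M] [Module T M] [Module K M] [IsScalarTower K T M]
  [Module.Finite K M]

/-- `κ : D Hom_T(M, T) → M`, the inverse of the canonical map -/
theorem exists_kap (ξ : Module.Dual K (M →ₗ[T] T)) :
    ∃ m : M, ∀ s : M →ₗ[T] T, y.lam (s m) = ξ s := by
  let L : Module.Dual K M →ₗ[K] (M →ₗ[T] T) :=
    { toFun := fun l => lift y l
      map_add' := fun l l' => hom_ext y fun q => by
        rw [lam_lift, LinearMap.add_apply, LinearMap.add_apply, map_add, lam_lift, lam_lift]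
      map_smul' := fun c l => hom_ext y fun q => by
        rw [lam_lift, LinearMap.smul_apply, LinearMap.smul_apply, map_smul, lam_lift,
          RingHom.id_apply] }
  obtain ⟨m, hm⟩ := (Module.evalEquiv K M).surjective (ξ ∘ₗ L)
  refine ⟨m, fun s => ?_⟩
  have h1 := LinearMap.congr_fun hm (y.lam ∘ₗ s.restrictScalars K)
  simp only [Module.evalEquiv_apply, Module.Dual.eval_apply, LinearMap.comp_apply,
    LinearMap.restrictScalars_apply] at h1
  rw [h1]
  change ξ (lift y _) = _
  rw [lift_lam]

/-- the inverse of the canonical map -/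
noncomputable def kap (ξ : Module.Dual K (M →ₗ[T] T)) : M := (exists_kap y ξ).choose

theorem kap_spec (ξ : Module.Dual K (M →ₗ[T] T)) (s : M →ₗ[T] T) : y.lam (s (kap y ξ)) = ξ s :=
  (exists_kap y ξ).choose_spec s

end kappa

section tw

variable {N : Type} [AddCommGroup N] [Module T N] [Module K N] [IsScalarTower K T N]
variable {N' : Type} [AddCommGroup N'] [Module T N'] [Module K N'] [IsScalarTower K T N']

/-- the twist of a linear map -/
def tw (v : N →ₗ[T] N') : Tw y N →ₗ[T] Tw y N' where
  toFun x := Tw.mk y (v (Tw.un y x))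
  map_add' x x' := Tw.ext y (by simp)
  map_smul' b x := Tw.ext y (by simp)

@[simp] theorem un_tw (v : N →ₗ[T] N') (x : Tw y N) : Tw.un y (tw y v x) = v (Tw.un y x) := rfl

end tw

section EE

variable [Module.Finite K T]
variable {M : Type} [AddCommGroup M] [Module T M] [Module K M] [IsScalarTower K T M]
  [Module.Finite K M]
variable {N : Type} [AddCommGroup N] [Module T N] [Module K N] [IsScalarTower K T N]
variable {N' : Type} [AddCommGroup N'] [Module T N'] [Module K N'] [IsScalarTower K T N']
variable {N'' : Type} [AddCommGroup N''] [Module T N''] [Module K N''] [IsScalarTower K T N'']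

/-- the endomorphism attached to `ξ` and `u` -/
noncomputable def EE0 (u : M →ₗ[T] Tw y N) (ξ : GG K M (T := T) N) : M →ₗ[T] M where
  toFun x := kap y (smulF ξ (Tw.un y (u x)))
  map_add' x x' := sep y fun s => by
    rw [map_add s, map_add y.lam, kap_spec, kap_spec, kap_spec, smulF_apply, smulF_apply,
      smulF_apply, ← map_add]
    congr 1
    ext z
    simp
  map_smul' t x := sep y fun s => by
    have h1 : ∀ m : M, s m * y.nu t =
        (((LinearMap.toSpanSingleton T T (y.nu t)) ∘ₗ s) : M →ₗ[T] T) m := by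
      intro m; simp
    rw [RingHom.id_apply, map_smul, map_smul, smul_eq_mul, y.comm, h1, kap_spec, kap_spec,
      smulF_apply, smulF_apply]
    congr 1
    ext z
    simp [mul_smul]

theorem EE0_spec (u : M →ₗ[T] Tw y N) (ξ : GG K M (T := T) N) (x : M) (s : M →ₗ[T] T) :
    y.lam (s (EE0 y u ξ x)) = ξ.ev (s.smulRight (Tw.un y (u x))) :=
  kap_spec y (smulF ξ (Tw.un y (u x))) s

/-- the natural map `Hom_T(M, Tw N) → Hom_A(G N, A)` -/
noncomputable def EE (u : M →ₗ[T] Tw y N) :
    GG K M (T := T) N →ₗ[Module.End T M] Module.End T M where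
  toFun ξ := EE0 y u ξ
  map_add' ξ ξ' := LinearMap.ext fun x => sep y fun s => by
    rw [LinearMap.add_apply, map_add, map_add, EE0_spec, EE0_spec, EE0_spec, GG.ev_add]
  map_smul' γ ξ := LinearMap.ext fun x => sep y fun s => by
    rw [EE0_spec, GG.ev_smul]
    change _ = y.lam ((s ∘ₗ γ) (EE0 y u ξ x))
    rw [EE0_spec]
    congr 1

/-- characterisation of `EE` -/
theorem EE_spec (u : M →ₗ[T] Tw y N) (ξ : GG K M (T := T) N) (x : M) (s : M →ₗ[T] T) :
    y.lam (s (EE y u ξ x)) = ξ.ev (s.smulRight (Tw.un y (u x))) :=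
  EE0_spec y u ξ x s

theorem EE_comp (v : N →ₗ[T] N') (u : M →ₗ[T] Tw y N) (ξ : GG K M (T := T) N') :
    EE y (tw y v ∘ₗ u) ξ = EE y u (Gmap v ξ) := by
  refine LinearMap.ext fun x => sep y fun s => ?_
  rw [EE_spec, EE_spec, ev_Gmap]
  congr 1
  ext z
  simp

variable {p₁ : M →ₗ[T] T} {e : M}

include y in
theorem EE_inj (he : p₁ e = 1) {u u' : M →ₗ[T] Tw y N} (h : EE y u = EE y u') : u = u' := by
  refine LinearMap.ext fun x => ?_
  apply Tw.ext y
  rw [← sub_eq_zero, ← Module.forall_dual_apply_eq_zero_iff K]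
  intro l
  let ξ : GG K M (T := T) N := GG.mk
    { toFun := fun f => l (f e)
      map_add' := fun f g => by rw [LinearMap.add_apply, map_add]
      map_smul' := fun c f => by rw [LinearMap.smul_apply, map_smul, RingHom.id_apply] }
  have key : ∀ v : M →ₗ[T] Tw y N, y.lam (p₁ (EE y v ξ x)) = l (Tw.un y (v x)) := by
    intro v
    rw [EE_spec]
    change l (p₁ e • Tw.un y (v x)) = _
    rw [he, one_smul]
  rw [map_sub, ← key u, ← key u', h, sub_self]

/-- the canonical elements of `G (T^n)` -/
def iot {m : ℕ} (i : Fin m) : M →ₗ[Module.End T M] GG K M (T := T) (Fin m → T) where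
  toFun z := GG.mk
    { toFun := fun f => y.lam (f z i)
      map_add' := fun f g => by rw [LinearMap.add_apply, Pi.add_apply, map_add]
      map_smul' := fun c f => by
        rw [LinearMap.smul_apply, Pi.smul_apply, map_smul, RingHom.id_apply] }
  map_add' z z' := GG.ext fun f => by
    change y.lam (f (z + z') i) = y.lam (f z i) + y.lam (f z' i)
    rw [map_add, Pi.add_apply, map_add]
  map_smul' γ z := GG.ext fun f => rfl

theorem iot_ev {m : ℕ} (i : Fin m) (z : M) (f : M →ₗ[T] (Fin m → T)) :
    (iot (K := K) y i z).ev f = y.lam (f z i) := rfl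

/-- the map `M → Tw (T^m)`, `x ↦ nu (p x)` in the `i`-th place -/
def sng {m : ℕ} (p : M →ₗ[T] T) (i : Fin m) : M →ₗ[T] Tw y (Fin m → T) where
  toFun x := Tw.mk y (Pi.single i (y.nu (p x)))
  map_add' x x' := Tw.ext y (by
    rw [Tw.un_mk, Tw.un_add, Tw.un_mk, Tw.un_mk, map_add, map_add, Pi.single_add])
  map_smul' b x := Tw.ext y (by
    rw [Tw.un_mk, RingHom.id_apply, Tw.un_smul, Tw.un_mk, map_smul, smul_eq_mul, map_mul,
      ← smul_eq_mul, Pi.single_smul])

/-- coordinates of the elements of `G (T^n)` -/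
theorem iot_coord (he : p₁ e = 1) {m : ℕ} (ξ : GG K M (T := T) (Fin m → T)) :
    ∑ i, iot y i (EE y (sng y p₁ i) ξ e) = ξ := by
  refine GG.ext fun f => ?_
  rw [ev_sum]
  have : ∀ i : Fin m, (iot y i (EE y (sng y p₁ i) ξ e)).ev f =
      ξ.ev ((LinearMap.single T (fun _ => T) i) ∘ₗ (LinearMap.proj i) ∘ₗ f) := by
    intro i
    rw [iot_ev]
    change y.lam (((LinearMap.proj i : (Fin m → T) →ₗ[T] T) ∘ₗ f) _) = _
    rw [EE_spec]
    congr 1
    ext z j
    have hs : Tw.un y (sng y p₁ i e) = Pi.single i 1 := by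
      change (Pi.single i (y.nu (p₁ e)) : Fin m → T) = _
      rw [he, map_one]
    rw [LinearMap.smulRight_apply, hs]
    simp only [LinearMap.comp_apply, Pi.smul_apply, smul_eq_mul,
      LinearMap.coe_single, LinearMap.coe_proj, Function.eval]
    by_cases hj : j = i
    · subst hj; simp
    · simp [hj]
  rw [Finset.sum_congr rfl fun i _ => this i, ← map_sum]
  congr 1
  ext z j
  simp only [LinearMap.sum_apply, LinearMap.comp_apply, LinearMap.coe_single, LinearMap.coe_proj,
    Function.eval, Finset.sum_apply]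
  rw [Finset.sum_eq_single j]
  · simp
  · intro i _ hi; simp [hi.symm]
  · simp

include y in
/-- `G (T^n)` is projective -/
theorem projective_G (he : p₁ e = 1) (m : ℕ) :
    Module.Projective (Module.End T M) (GG K M (T := T) (Fin m → T)) := by
  refine Module.Projective.of_split (M := Fin m → Module.End T M)
    (LinearMap.pi fun i => EE y (sng y p₁ i))
    (∑ i, (iot y i) ∘ₗ (LinearMap.toSpanSingleton (Module.End T M) M e) ∘ₗ (LinearMap.proj i)) ?_
  refine LinearMap.ext fun ξ => ?_
  simp only [LinearMap.comp_apply, LinearMap.sum_apply, LinearMap.pi_apply, LinearMap.coe_proj,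
    Function.eval, LinearMap.id_apply, LinearMap.toSpanSingleton_apply, Module.End.smul_def]
  exact iot_coord y he ξ

theorem EE_surj (he : p₁ e = 1) {m : ℕ}
    (ψ : GG K M (T := T) (Fin m → T) →ₗ[Module.End T M] Module.End T M) :
    ∃ h : M →ₗ[T] Tw y (Fin m → T), EE y h = ψ := by
  let h : M →ₗ[T] Tw y (Fin m → T) :=
    { toFun := fun x => Tw.mk y fun i => y.nu (p₁ (((ψ ∘ₗ iot y i) e : Module.End T M) x))
      map_add' := fun x x' => Tw.ext y (by
        rw [Tw.un_mk, Tw.un_add, Tw.un_mk, Tw.un_mk]
        funext i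
        rw [Pi.add_apply, map_add, map_add, map_add])
      map_smul' := fun b x => Tw.ext y (by
        rw [Tw.un_mk, RingHom.id_apply, Tw.un_smul, Tw.un_mk]
        funext i
        rw [Pi.smul_apply, map_smul, map_smul, smul_eq_mul, map_mul, smul_eq_mul]) }
  refine ⟨h, ?_⟩
  have key : ∀ (i : Fin m) (z : M), EE y h (iot y i z) = ψ (iot y i z) := by
    intro i z
    refine LinearMap.ext fun x => sep y fun s => ?_
    rw [EE_spec, iot_ev]
    have h2 := endo_hom he (ψ ∘ₗ iot y i) z x
    rw [LinearMap.comp_apply] at h2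
    rw [h2, map_smul, smul_eq_mul, y.comm]
    rfl
  refine LinearMap.ext fun ξ => ?_
  rw [← iot_coord y he ξ, map_sum, map_sum]
  exact Finset.sum_congr rfl fun i _ => key i _

theorem EE_zero : EE y (0 : M →ₗ[T] Tw y N) = 0 := by
  refine LinearMap.ext fun ξ => LinearMap.ext fun x => sep y fun s => ?_
  rw [EE_spec]
  have : s.smulRight (Tw.un y ((0 : M →ₗ[T] Tw y N) x)) = 0 := by
    ext z
    simp
  rw [this]
  simp

/-- every map `G N → A` comes from `M → Tw N` when `N` embeds well in a `T^m` -/
theorem EE_surj' (he : p₁ e = 1) {m : ℕ} {j : N →ₗ[T] (Fin m → T)} (hj : Function.Injective j)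
    {q : (Fin m → T) →ₗ[T] N''} (h0 : ∀ a, q (j a) = 0) (hex : ∀ b, q b = 0 → ∃ a, j a = b)
    (g : GG K M (T := T) N →ₗ[Module.End T M] Module.End T M) :
    ∃ h' : M →ₗ[T] Tw y N, EE y h' = g := by
  obtain ⟨h, hh⟩ := EE_surj y he (g ∘ₗ Gmap j)
  have hq : tw y q ∘ₗ h = 0 := by
    apply EE_inj y he
    rw [EE_zero]
    refine LinearMap.ext fun ξ => ?_
    rw [EE_comp, hh, LinearMap.comp_apply, Gmap_comp_zero h0, map_zero]
    rfl
  obtain ⟨h', rfl⟩ := factor (j := tw y j) (fun a a' haa => Tw.ext y (hj haa))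
    (q := tw y q) (fun b hb => by
      obtain ⟨a, ha⟩ := hex (Tw.un y b) hb
      exact ⟨Tw.mk y a, ha⟩) h hq
  refine ⟨h', LinearMap.ext fun ξ => ?_⟩
  obtain ⟨η, rfl⟩ := Gmap_surj (K := K) (M := M) hj ξ
  rw [← EE_comp, hh]
  rfl

end EE

end Pool.Agent.H177.TN
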