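import Pool.Agent.H190.NK.Main
import Pool.Agent.H177.TN.AFunc

/-!
# `Ext_C(DC, C) = 0` for `C = End_B (B × U)` (project TN, part A)
-/

set_option autoImplicit false
set_option linter.unusedSectionVars false
set_option linter.unusedVariables false

open CategoryTheory CategoryTheory.Abelian
open Pool.Agent.H379.GS
open Pool.Agent.H379.TN
open Pool.Agent.H190.NK (GG Gmap ev_Gmap Gmap_surj Gmap_inj Gmap_exact Gmap_comp_zero
  shortExact_of co_shift co_lift co_mid contra_one contra_shift)

namespace Pool.Agent.H177.TN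

section general

variable {T : Type} [Ring T] {X : Type} [AddCommGroup X] [Module T X]
variable {N : Type} [AddCommGroup N] [Module T N] {P : Type} [AddCommGroup P] [Module T P]
variable {N' : Type} [AddCommGroup N'] [Module T N']

theorem ev_quot (hP : Module.Injective T P) {j : N →ₗ[T] P} (hj : Function.Injective j)
    {q : P →ₗ[T] N'} (hq : Function.Surjective q) (h0 : ∀ a, q (j a) = 0)
    (hex : ∀ b, q b = 0 → ∃ a, j a = b) (hN : EV T X N) : EV T X N' := by
  intro k
  have : Injective (ModuleCat.of T P) := Module.injective_object_of_injective_module T P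
  exact co_shift (shortExact_of j q hj hq h0 hex) (ModuleCat.of T X) k (hN (k + 1))

theorem ev_mid {j : N →ₗ[T] P} (hj : Function.Injective j) {q : P →ₗ[T] N'}
    (hq : Function.Surjective q) (h0 : ∀ a, q (j a) = 0)
    (hex : ∀ b, q b = 0 → ∃ a, j a = b) (hN : EV T X N) (hN' : EV T X N') : EV T X P :=
  fun k => co_mid (shortExact_of j q hj hq h0 hex) (ModuleCat.of T X) (k + 1) (hN k) (hN' k)

theorem ev_inj (hP : Module.Injective T P) : EV T X P := by
  intro k
  have : Injective (ModuleCat.of T P) := Module.injective_object_of_injective_module T P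
  exact subsingleton_of_forall_eq 0 fun x => Ext.eq_zero_of_injective x

theorem lift_gen {j : N →ₗ[T] P} (hj : Function.Injective j)
    {q : P →ₗ[T] N'} (hq : Function.Surjective q) (h0 : ∀ a, q (j a) = 0)
    (hex : ∀ b, q b = 0 → ∃ a, j a = b) (hN : EV T X N) (g : (T × X) →ₗ[T] N') :
    ∃ g' : (T × X) →ₗ[T] P, q ∘ₗ g' = g := by
  obtain ⟨a, ha⟩ := hq (g (1, 0))
  obtain ⟨g₂, hg₂⟩ := co_lift (shortExact_of j q hj hq h0 hex) (ModuleCat.of T X) (hN 0)
    (ModuleCat.ofHom (g ∘ₗ LinearMap.inr T T X))
  refine ⟨(LinearMap.toSpanSingleton T _ a).coprod g₂.hom, ?_⟩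
  refine LinearMap.prod_ext ?_ ?_
  · ext
    simp [ha]
  · ext x
    have := LinearMap.congr_fun (congrArg ModuleCat.Hom.hom hg₂) x
    simpa using this

theorem subsingleton_of_iso {C : Type 1} [Category.{0} C] [Abelian C] [HasExt.{0} C] {X X' Y : C}
    (e : X ≅ X') (n : ℕ) (h : Subsingleton (Ext.{0} X Y n)) : Subsingleton (Ext.{0} X' Y n) := by
  refine subsingleton_of_forall_eq 0 fun x => ?_
  have h1 : x = (Ext.mk₀ e.inv).comp ((Ext.mk₀ e.hom).comp x (zero_add n)) (zero_add n) := by
    rw [Ext.mk₀_comp_mk₀_assoc]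
    simp
  rw [h1, Subsingleton.elim ((Ext.mk₀ e.hom).comp x (zero_add n)) 0, Ext.comp_zero]

end general

/-- the dual of the endomorphism algebra is `G M` -/
def isoDA (K T M : Type) [Field K] [Ring T] [Algebra K T] [AddCommGroup M] [Module T M]
    [Module K M] [IsScalarTower K T M] [Module.Finite K M] :
    GG K M (T := T) M ≃ₗ[Module.End T M] DA K (Module.End T M) where
  toFun ξ := DA.mk ξ.ev
  invFun f := GG.mk (DA.ev f)
  map_add' ξ ξ' := rfl
  map_smul' γ ξ := rfl
  left_inv ξ := rfl
  right_inv f := rfl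

variable {K : Type} [Field K] {T : Type} [Ring T] [Algebra K T] (y : Fr K T) [Module.Finite K T]

include y in
theorem inj_pi (n : ℕ) : Module.Injective T (Fin n → T) := by
  have := injective_self y
  refine ⟨fun P Q _ _ _ _ f hf g => ?_⟩
  have h : ∀ i : Fin n, ∃ h : Q →ₗ[T] T, ∀ x, h (f x) = ((LinearMap.proj i) ∘ₗ g) x := by
    intro i
    exact this.out f hf _
  choose h hh using h
  refine ⟨LinearMap.pi h, fun x => ?_⟩
  ext i
  exact hh i x

include y in
theorem exists_embed {N : Type} [AddCommGroup N] [Module T N] [Module K N] [IsScalarTower K T N]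
    [Module.Finite K N] : ∃ (n : ℕ) (j : N →ₗ[T] (Fin n → T)), Function.Injective j := by
  let b := Module.finBasis K N
  refine ⟨Module.finrank K N, LinearMap.pi fun i => lift y (b.coord i), ?_⟩
  rw [← LinearMap.ker_eq_bot, LinearMap.ker_eq_bot']
  intro q hq
  apply b.ext_elem
  intro i
  have h1 : lift y (b.coord i) q = 0 := congrFun hq i
  have h2 := lam_lift y (b.coord i) q
  rw [h1, map_zero] at h2
  rw [← Module.Basis.coord_apply, ← h2, map_zero]
  rfl

/-- the twist of an injective module is injective -/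
theorem tw_injective {N : Type} [AddCommGroup N] [Module T N] (hN : Module.Injective T N) :
    Module.Injective T (Tw y N) := by
  refine ⟨fun P Q _ _ _ _ f hf g => ?_⟩
  let f' : Tw y P →ₗ[T] Tw y Q :=
    { toFun := fun x => Tw.mk y (f (Tw.un y x))
      map_add' := fun x x' => Tw.ext y (by simp)
      map_smul' := fun b x => Tw.ext y (by simp) }
  let g' : Tw y P →ₗ[T] N :=
    { toFun := fun x => Tw.un y (g (Tw.un y x))
      map_add' := fun x x' => by simp
      map_smul' := fun b x => by
        rw [Tw.un_smul, map_smul, Tw.un_smul, y.nn, RingHom.id_apply] }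
  obtain ⟨h, hh⟩ := hN.out f' (fun a a' haa => Tw.ext y (hf haa)) g'
  have hmk : ∀ (b : T) (x : Q), Tw.mk y (b • x) = y.nu b • Tw.mk y x := fun b x =>
    Tw.ext y (by rw [Tw.un_mk, Tw.un_smul, Tw.un_mk, y.nn])
  refine ⟨
    { toFun := fun x => Tw.mk y (h (Tw.mk y x))
      map_add' := fun x x' => Tw.ext y (by
        have hm : Tw.mk y (x + x') = Tw.mk y x + Tw.mk y x' := rfl
        rw [Tw.un_mk, hm, map_add]
        rfl)
      map_smul' := fun b x => Tw.ext y (by
        rw [Tw.un_mk, hmk, map_smul, RingHom.id_apply, Tw.un_smul, Tw.un_mk]) }, fun x => ?_⟩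
  exact hh (Tw.mk y x)

/-- the class of modules used in the dimension shift -/
def Cl (X N : Type) [AddCommGroup X] [Module T X] [AddCommGroup N] [Module T N] : Prop :=
  Module.Finite T N ∧ EV T X N ∧ EV T X (Tw y N)

section tws

variable {N : Type} [AddCommGroup N] [Module T N] {P : Type} [AddCommGroup P] [Module T P]
variable {N' : Type} [AddCommGroup N'] [Module T N']

/-- the twist of a linear map (no scalar structure) -/
def twl (v : N →ₗ[T] N') : Tw y N →ₗ[T] Tw y N' where
  toFun x := Tw.mk y (v (Tw.un y x))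
  map_add' x x' := Tw.ext y (by simp)
  map_smul' b x := Tw.ext y (by simp)

theorem twl_inj {v : N →ₗ[T] N'} (hv : Function.Injective v) : Function.Injective (twl y v) :=
  fun _ _ h => Tw.ext y (hv h)

theorem twl_surj {v : N →ₗ[T] N'} (hv : Function.Surjective v) :
    Function.Surjective (twl y v) := by
  intro b
  obtain ⟨a, ha⟩ := hv (Tw.un y b)
  exact ⟨Tw.mk y a, ha⟩

theorem twl_zero {j : N →ₗ[T] P} {q : P →ₗ[T] N'} (h0 : ∀ a, q (j a) = 0) (a : Tw y N) :
    twl y q (twl y j a) = 0 := h0 (Tw.un y a)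

theorem twl_ex {j : N →ₗ[T] P} {q : P →ₗ[T] N'} (hex : ∀ b, q b = 0 → ∃ a, j a = b)
    (b : Tw y P) (hb : twl y q b = 0) : ∃ a, twl y j a = b := by
  obtain ⟨a, ha⟩ := hex (Tw.un y b) hb
  exact ⟨Tw.mk y a, ha⟩

variable {X : Type} [AddCommGroup X] [Module T X]

theorem cl_quot {n : ℕ} {j : N →ₗ[T] (Fin n → T)} (hj : Function.Injective j)
    {q : (Fin n → T) →ₗ[T] N'} (hq : Function.Surjective q) (h0 : ∀ a, q (j a) = 0)
    (hex : ∀ b, q b = 0 → ∃ a, j a = b) (hN : Cl y X N) : Cl y X N' := by
  refine ⟨Module.Finite.of_surjective q hq, ev_quot (inj_pi y n) hj hq h0 hex hN.2.1, ?_⟩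
  exact ev_quot (tw_injective y (inj_pi y n)) (twl_inj y hj) (twl_surj y hq) (twl_zero y h0)
    (twl_ex y hex) hN.2.2

end tws

section main

variable {X : Type} [AddCommGroup X] [Module T X] [Module K X] [IsScalarTower K T X]
  [Module.Finite K X]

include y in
theorem ext_G (k : ℕ) : ∀ (N : Type) [AddCommGroup N] [Module T N] [Module K N]
    [IsScalarTower K T N], Cl y X N →
    Subsingleton (Ext.{0} (ModuleCat.of (Module.End T (T × X)) (GG K (T × X) (T := T) N))
      (ModuleCat.of (Module.End T (T × X)) (Module.End T (T × X))) (k + 1)) := by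
  have he : (LinearMap.fst T T X) ((1, 0) : T × X) = 1 := rfl
  induction k with
  | zero =>
    intro N _ _ _ _ hN
    have := hN.1
    have : Module.Finite K N := Module.Finite.trans T N
    obtain ⟨n, j, hj⟩ := exists_embed y (N := N)
    let q := (LinearMap.range j).mkQ
    have hq : Function.Surjective q := Submodule.mkQ_surjective _
    have h0 : ∀ a, q (j a) = 0 := fun a => by
      rw [Submodule.mkQ_apply, Submodule.Quotient.mk_eq_zero]; exact ⟨a, rfl⟩
    have hex : ∀ b, q b = 0 → ∃ a, j a = b := fun b hb => by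
      rw [Submodule.mkQ_apply, Submodule.Quotient.mk_eq_zero] at hb; exact hb
    have hN' : Cl y X ((Fin n → T) ⧸ LinearMap.range j) := cl_quot y hj hq h0 hex hN
    have := hN'.1
    have : Module.Finite K ((Fin n → T) ⧸ LinearMap.range j) := Module.Finite.trans T _
    obtain ⟨m, j', hj'⟩ := exists_embed y (N := (Fin n → T) ⧸ LinearMap.range j)
    let q' := (LinearMap.range j').mkQ
    have h0' : ∀ a, q' (j' a) = 0 := fun a => by
      rw [Submodule.mkQ_apply, Submodule.Quotient.mk_eq_zero]; exact ⟨a, rfl⟩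
    have hex' : ∀ b, q' b = 0 → ∃ a, j' a = b := fun b hb => by
      rw [Submodule.mkQ_apply, Submodule.Quotient.mk_eq_zero] at hb; exact hb
    have hlift := lift_gen (X := X) hj hq h0 hex hN.2.1
    have hlift' := lift_gen (X := X) (twl_inj y hj) (twl_surj y hq) (twl_zero y h0)
      (twl_ex y hex) hN.2.2
    have hSE := shortExact_of (Gmap (K := K) (M := T × X) q) (Gmap (K := K) (M := T × X) j)
      (Gmap_inj hlift) (Gmap_surj hj) (Gmap_comp_zero h0) (Gmap_exact hj hex hlift)
    have hP := projective_G y he n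
    have hP' : Projective (ModuleCat.of (Module.End T (T × X))
      (GG K (T × X) (T := T) (Fin n → T))) := (IsProjective.iff_projective _).mp hP
    refine contra_one hSE _ fun g => ?_
    obtain ⟨h', hh'⟩ := EE_surj' y he hj' h0' hex' g.hom
    obtain ⟨ĥ, hĥ⟩ := hlift' h'
    refine ⟨ModuleCat.ofHom (EE y ĥ), ?_⟩
    apply ModuleCat.hom_ext
    refine LinearMap.ext fun ξ => ?_
    have hc := EE_comp y q ĥ ξ
    have ht : tw y q ∘ₗ ĥ = h' := hĥ
    rw [ht, hh'] at hc
    exact hc.symm
  | succ k ih =>
    intro N _ _ _ _ hN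
    have := hN.1
    have : Module.Finite K N := Module.Finite.trans T N
    obtain ⟨n, j, hj⟩ := exists_embed y (N := N)
    let q := (LinearMap.range j).mkQ
    have hq : Function.Surjective q := Submodule.mkQ_surjective _
    have h0 : ∀ a, q (j a) = 0 := fun a => by
      rw [Submodule.mkQ_apply, Submodule.Quotient.mk_eq_zero]; exact ⟨a, rfl⟩
    have hex : ∀ b, q b = 0 → ∃ a, j a = b := fun b hb => by
      rw [Submodule.mkQ_apply, Submodule.Quotient.mk_eq_zero] at hb; exact hb
    have hN' : Cl y X ((Fin n → T) ⧸ LinearMap.range j) := cl_quot y hj hq h0 hex hN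
    have hlift := lift_gen (X := X) hj hq h0 hex hN.2.1
    have hSE := shortExact_of (Gmap (K := K) (M := T × X) q) (Gmap (K := K) (M := T × X) j)
      (Gmap_inj hlift) (Gmap_surj hj) (Gmap_comp_zero h0) (Gmap_exact hj hex hlift)
    have hP := projective_G y he n
    have hP' : Projective (ModuleCat.of (Module.End T (T × X))
      (GG K (T × X) (T := T) (Fin n → T))) := (IsProjective.iff_projective _).mp hP
    exact contra_shift hSE _ k (ih _ hN')

theorem cl_self (h1 : EV T X X) (h2 : EV T X (Tw y X)) : Cl y X (T × X) := by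
  have : Module.Finite T X := Module.Finite.of_restrictScalars_finite K T X
  have hs : Function.Surjective (LinearMap.snd T T X) := LinearMap.snd_surjective
  have hi : Function.Injective (LinearMap.inl T T X) := LinearMap.inl_injective
  have hz : ∀ a, LinearMap.snd T T X (LinearMap.inl T T X a) = 0 := fun a => rfl
  have hx : ∀ b, LinearMap.snd T T X b = 0 → ∃ a, LinearMap.inl T T X a = b :=
    fun b hb => ⟨b.1, Prod.ext rfl hb.symm⟩
  refine ⟨inferInstance, ?_, ?_⟩
  · exact ev_mid hi hs hz hx (ev_inj (injective_self y)) h1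
  · exact ev_mid (twl_inj y hi) (twl_surj y hs) (twl_zero y hz) (twl_ex y hx)
      (ev_inj (tw_injective y (injective_self y))) h2

end main

/-- PART A. -/
theorem s_A : S_A := by
  intro K B _ _ _ _ y U _ _ _ _ _ h1 h2 n
  exact subsingleton_of_iso (isoDA K B (B × U)).toModuleIso (n + 1)
    (ext_G y n (B × U) (cl_self y h1 h2))

end Pool.Agent.H177.TN
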